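import Pool.Agent.Helper88.NW.CrxGoals

/-!
# The gaps with crossings: all, or every second one
-/

set_option autoImplicit false

namespace Pool.Agent.Helper88.NW

open Pool.Agent.Helper52.Wq2 Pool.Agent.Helper61.NW

universe u

/-- A crossing between two lines. -/
def Yc {Γ : Type u} [Group Γ] (S : Set Γ) (h : Γ → ℤ) (s : Γ) (H : ℕ)
    (u v : Γ ⧸ Subgroup.zpowers s) : Prop :=
  ∃ a b : Γ, (a : Γ ⧸ Subgroup.zpowers s) = u ∧ (b : Γ ⧸ Subgroup.zpowers s) = v ∧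
    h b = h a + H ∧ a⁻¹ * b ∈ S ∧ (a * s)⁻¹ * (b * s⁻¹) ∈ S

theorem Yc.symm {Γ : Type u} [Group Γ] {S : Set Γ} {h : Γ → ℤ} {s : Γ} {H n m : ℕ}
    (T : Two S h s H n m) {u v : Γ ⧸ Subgroup.zpowers s} (hy : Yc S h s H u v) :
    Yc S h s H v u := by
  obtain ⟨a, b, ha, hb, hab, h1, h2⟩ := hy
  have hinv : h s⁻¹ = -(H : ℤ) := by
    have e1 := T.hom s s⁻¹
    have e2 := T.hom 1 1
    rw [mul_inv_cancel, T.Hs] at e1
    rw [mul_one] at e2
    linarith
  refine ⟨b * s⁻¹, a * s, ?_, ?_, ?_, ?_, ?_⟩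
  · rw [← hb]
    exact QuotientGroup.mk_mul_of_mem b ((Subgroup.zpowers s).inv_mem (Subgroup.mem_zpowers s))
  · rw [← ha]
    exact QuotientGroup.mk_mul_of_mem a (Subgroup.mem_zpowers s)
  · rw [T.hom, T.hom, T.Hs, hinv, hab]
    ring
  · have := T.gen.2.1 _ h2
    rwa [mul_inv_rev, inv_inv] at this
  · have := T.gen.2.1 _ h1
    rw [inv_mul_cancel_right, mul_inv_cancel_right]
    rwa [mul_inv_rev, inv_inv] at this

theorem Yc.left {Γ : Type u} [Group Γ] {S : Set Γ} {h : Γ → ℤ} {s : Γ} {H n m : ℕ}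
    (T : Two S h s H n m) {a b : Γ} (g : Γ)
    (hy : Yc S h s H (a : Γ ⧸ Subgroup.zpowers s) (b : Γ ⧸ Subgroup.zpowers s)) :
    Yc S h s H ((g * a : Γ) : Γ ⧸ Subgroup.zpowers s) ((g * b : Γ) : Γ ⧸ Subgroup.zpowers s) := by
  obtain ⟨a', b', ha, hb, hab, h1, h2⟩ := hy
  have key : ∀ x y : Γ, (x : Γ ⧸ Subgroup.zpowers s) = y →
      ((g * x : Γ) : Γ ⧸ Subgroup.zpowers s) = ((g * y : Γ) : Γ ⧸ Subgroup.zpowers s) := by
    intro x y hxy
    rw [QuotientGroup.eq] at hxy ⊢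
    have e : (g * x)⁻¹ * (g * y) = x⁻¹ * y := by group
    rwa [e]
  refine ⟨g * a', g * b', key _ _ ha, key _ _ hb, ?_, ?_, ?_⟩
  · rw [T.hom, T.hom, hab]; ring
  · have e : (g * a')⁻¹ * (g * b') = a'⁻¹ * b' := by group
    rwa [e]
  · have e : (g * a' * s)⁻¹ * (g * b' * s⁻¹) = (a' * s)⁻¹ * (b' * s⁻¹) := by group
    rwa [e]

theorem ln_left {Γ : Type u} [Group Γ] {S : Set Γ} {s : Γ} {a b : Γ} (g : Γ)
    (hy : (Ln S s).Adj (a : Γ ⧸ Subgroup.zpowers s) (b : Γ ⧸ Subgroup.zpowers s)) :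
    (Ln S s).Adj ((g * a : Γ) : Γ ⧸ Subgroup.zpowers s) ((g * b : Γ) : Γ ⧸ Subgroup.zpowers s) := by
  have key : ∀ x y : Γ, (x : Γ ⧸ Subgroup.zpowers s) = y →
      ((g * x : Γ) : Γ ⧸ Subgroup.zpowers s) = ((g * y : Γ) : Γ ⧸ Subgroup.zpowers s) := by
    intro x y hxy
    rw [QuotientGroup.eq] at hxy ⊢
    have e : (g * x)⁻¹ * (g * y) = x⁻¹ * y := by group
    rwa [e]
  have key' : ∀ x y : Γ, ((g * x : Γ) : Γ ⧸ Subgroup.zpowers s) =
      ((g * y : Γ) : Γ ⧸ Subgroup.zpowers s) → (x : Γ ⧸ Subgroup.zpowers s) = y := by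
    intro x y hxy
    rw [QuotientGroup.eq] at hxy ⊢
    have e : (g * x)⁻¹ * (g * y) = x⁻¹ * y := by group
    rwa [e] at hxy
  unfold Ln at hy ⊢
  rw [SimpleGraph.fromRel_adj] at hy ⊢
  obtain ⟨hne, hy⟩ := hy
  refine ⟨fun hh => hne (key' _ _ hh), ?_⟩
  rcases hy with ⟨x, t, ht, h1, h2⟩ | ⟨x, t, ht, h1, h2⟩
  · refine Or.inl ⟨g * x, t, ht, key _ _ h1, ?_⟩
    rw [mul_assoc]
    exact key _ _ h2
  · refine Or.inr ⟨g * x, t, ht, key _ _ h1, ?_⟩
    rw [mul_assoc]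
    exact key _ _ h2

/-- Transport of crossings from the line `i` to the line `i'`. -/
theorem transport {Γ : Type u} [Group Γ] {S : Set Γ} {h : Γ → ℤ} {s : Γ} {H n m : ℕ}
    (T : Two S h s H n m) (hn : 3 ≤ n) (e : (Γ ⧸ Subgroup.zpowers s) ≃ ZMod n)
    (hc : IsCyc S s n e) (i i' : ZMod n) :
    (Crs S h s H n e (i - 1) ∨ Crs S h s H n e i → Crs S h s H n e (i' - 1) ∨ Crs S h s H n e i') ∧
    (Crs S h s H n e (i - 1) ∧ Crs S h s H n e i → Crs S h s H n e (i' - 1) ∧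
      Crs S h s H n e i') := by
  have hX : ∀ j : ZMod n, Crs S h s H n e j ↔ Yc S h s H (e.symm j) (e.symm (j + 1)) := by
    intro j
    constructor
    · rintro ⟨a, b, ha, hb, hh⟩
      exact ⟨a, b, by rw [← ha, Equiv.symm_apply_apply], by rw [← hb, Equiv.symm_apply_apply], hh⟩
    · rintro ⟨a, b, ha, hb, hh⟩
      exact ⟨a, b, by rw [ha, Equiv.apply_symm_apply], by rw [hb, Equiv.apply_symm_apply], hh⟩
  have hX1 : ∀ j : ZMod n, Crs S h s H n e (j - 1) ↔ Yc S h s H (e.symm j) (e.symm (j - 1)) := by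
    intro j
    rw [hX, sub_add_cancel]
    exact ⟨fun hh => hh.symm T, fun hh => hh.symm T⟩
  obtain ⟨a0, ha0⟩ := QuotientGroup.mk_surjective (s := Subgroup.zpowers s) (e.symm i)
  obtain ⟨ap, hap⟩ := QuotientGroup.mk_surjective (s := Subgroup.zpowers s) (e.symm (i + 1))
  obtain ⟨am, ham⟩ := QuotientGroup.mk_surjective (s := Subgroup.zpowers s) (e.symm (i - 1))
  obtain ⟨b0, hb0⟩ := QuotientGroup.mk_surjective (s := Subgroup.zpowers s) (e.symm i')
  obtain ⟨g, hg⟩ : ∃ g : Γ, g = b0 * a0⁻¹ := ⟨_, rfl⟩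
  have hg0 : ((g * a0 : Γ) : Γ ⧸ Subgroup.zpowers s) = e.symm i' := by
    rw [hg, inv_mul_cancel_right]; exact hb0
  have e0 : e (a0 : Γ ⧸ Subgroup.zpowers s) = i := by rw [ha0, Equiv.apply_symm_apply]
  have ep : e (ap : Γ ⧸ Subgroup.zpowers s) = i + 1 := by rw [hap, Equiv.apply_symm_apply]
  have em : e (am : Γ ⧸ Subgroup.zpowers s) = i - 1 := by rw [ham, Equiv.apply_symm_apply]
  have eg0 : e ((g * a0 : Γ) : Γ ⧸ Subgroup.zpowers s) = i' := by
    rw [hg0, Equiv.apply_symm_apply]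
  have adp : (Ln S s).Adj (a0 : Γ ⧸ Subgroup.zpowers s) (ap : Γ ⧸ Subgroup.zpowers s) := by
    rw [hc, e0, ep]; exact Or.inl rfl
  have adm : (Ln S s).Adj (a0 : Γ ⧸ Subgroup.zpowers s) (am : Γ ⧸ Subgroup.zpowers s) := by
    rw [hc, e0, em]; exact Or.inr (by ring)
  have adp' := ln_left g adp
  have adm' := ln_left g adm
  rw [hc, eg0] at adp' adm'
  have ypm : (Yc S h s H (e.symm i) (e.symm (i + 1)) →
      Yc S h s H (e.symm i') ((g * ap : Γ) : Γ ⧸ Subgroup.zpowers s)) := by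
    intro hy
    rw [← ha0, ← hap] at hy
    have := hy.left T g
    rwa [hg0] at this
  have ymm : (Yc S h s H (e.symm i) (e.symm (i - 1)) →
      Yc S h s H (e.symm i') ((g * am : Γ) : Γ ⧸ Subgroup.zpowers s)) := by
    intro hy
    rw [← ha0, ← ham] at hy
    have := hy.left T g
    rwa [hg0] at this
  have hne : ((g * ap : Γ) : Γ ⧸ Subgroup.zpowers s) ≠ ((g * am : Γ) : Γ ⧸ Subgroup.zpowers s) := by
    intro hh
    have h1 : (ap : Γ ⧸ Subgroup.zpowers s) = am := by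
      rw [QuotientGroup.eq] at hh ⊢
      have e1 : (g * ap)⁻¹ * (g * am) = ap⁻¹ * am := by group
      rwa [e1] at hh
    have h2 : i + 1 = i - 1 := by rw [← ep, ← em, h1]
    have h3 : ((2 : ℕ) : ZMod n) = 0 := by
      push_cast
      linear_combination h2
    rw [ZMod.natCast_eq_zero_iff] at h3
    have := Nat.le_of_dvd (by norm_num) h3
    omega
  have cas : (((g * ap : Γ) : Γ ⧸ Subgroup.zpowers s) = e.symm (i' + 1) ∧
      ((g * am : Γ) : Γ ⧸ Subgroup.zpowers s) = e.symm (i' - 1)) ∨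
      (((g * ap : Γ) : Γ ⧸ Subgroup.zpowers s) = e.symm (i' - 1) ∧
      ((g * am : Γ) : Γ ⧸ Subgroup.zpowers s) = e.symm (i' + 1)) := by
    have q1 : ((g * ap : Γ) : Γ ⧸ Subgroup.zpowers s) = e.symm (i' + 1) ∨
        ((g * ap : Γ) : Γ ⧸ Subgroup.zpowers s) = e.symm (i' - 1) := by
      rcases adp' with hh | hh
      · left; rw [← hh, Equiv.symm_apply_apply]
      · right; rw [hh, add_sub_cancel_right, Equiv.symm_apply_apply]
    have q2 : ((g * am : Γ) : Γ ⧸ Subgroup.zpowers s) = e.symm (i' + 1) ∨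
        ((g * am : Γ) : Γ ⧸ Subgroup.zpowers s) = e.symm (i' - 1) := by
      rcases adm' with hh | hh
      · left; rw [← hh, Equiv.symm_apply_apply]
      · right; rw [hh, add_sub_cancel_right, Equiv.symm_apply_apply]
    rcases q1 with q1 | q1 <;> rcases q2 with q2 | q2
    · exact absurd (q1.trans q2.symm) hne
    · exact Or.inl ⟨q1, q2⟩
    · exact Or.inr ⟨q1, q2⟩
    · exact absurd (q1.trans q2.symm) hne
  rw [hX i, hX1 i, hX i', hX1 i']
  rcases cas with ⟨c1, c2⟩ | ⟨c1, c2⟩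
  · rw [c1] at ypm
    rw [c2] at ymm
    exact ⟨fun hh => hh.imp ymm ypm, fun hh => ⟨ymm hh.1, ypm hh.2⟩⟩
  · rw [c1] at ypm
    rw [c2] at ymm
    exact ⟨fun hh => (hh.imp ymm ypm).symm, fun hh => ⟨ypm hh.2, ymm hh.1⟩⟩

theorem crxA : CrxA.{u} := by
  intro Γ _ S h s H n m T hn e hc hex
  obtain ⟨j0, hj0⟩ := hex
  have hor : ∀ i : ZMod n, Crs S h s H n e (i - 1) ∨ Crs S h s H n e i := fun i =>
    (transport T hn e hc j0 i).1 (Or.inr hj0)
  by_cases hall : ∀ i : ZMod n, Crs S h s H n e i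
  · exact ⟨0, fun j _ => hall _⟩
  · push Not at hall
    obtain ⟨i0, hi0⟩ := hall
    have hnot : ∀ i : ZMod n, ¬ (Crs S h s H n e (i - 1) ∧ Crs S h s H n e i) := fun i hh =>
      hi0 ((transport T hn e hc i i0).2 hh).2
    have hstep : ∀ i : ZMod n, Crs S h s H n e i → Crs S h s H n e (i + 2) := by
      intro i hi
      have h1 : ¬ Crs S h s H n e (i + 1) := by
        intro hh
        apply hnot (i + 1)
        rw [add_sub_cancel_right]
        exact ⟨hi, hh⟩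
      have h2 := hor (i + 2)
      have h3 : i + 2 - 1 = i + 1 := by ring
      rw [h3] at h2
      exact h2.resolve_left h1
    refine ⟨j0, fun j _ => ?_⟩
    induction j with
    | zero => simpa using hj0
    | succ j ih =>
      have h1 := hstep _ (ih (by omega))
      have h2 : j0 + ((2 * (j + 1) : ℕ) : ZMod n) = j0 + ((2 * j : ℕ) : ZMod n) + 2 := by
        push_cast; ring
      rw [h2]
      exact h1

end Pool.Agent.Helper88.NW
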