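import Pool.Agent.Helper88.NW.CRXA
import Pool.Agent.Helper4.NW.W

/-!
# Blocks: the strip with crossings is a minor
-/

set_option autoImplicit false

namespace Pool.Agent.Helper88.NW

open Pool.Agent.Helper52.Wq2 Pool.Agent.Helper61.NW Pool.Agent.Helper4.NW

universe u

section

variable {Γ : Type u} [Group Γ] {S : Set Γ} {h : Γ → ℤ} {s : Γ} {H n m : ℕ}

/-- Height. -/
def P (h : Γ → ℤ) (H : ℕ) (g : Γ) : ℤ := h g / (H : ℤ)

theorem h_zpow (T : Two S h s H n m) (g : Γ) (y : ℤ) : h (g ^ y) = y * h g := by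
  let A' : Γ →* Multiplicative ℤ :=
    MonoidHom.mk' (fun g => Multiplicative.ofAdd (h g)) (by
      intro a b
      rw [T.hom]
      rfl)
  have h1 := map_zpow A' g y
  have h2 := congrArg Multiplicative.toAdd h1
  rw [toAdd_zpow, smul_eq_mul] at h2
  exact h2

theorem P_mul (T : Two S h s H n m) (g : Γ) (y : ℤ) : P h H (g * s ^ y) = P h H g + y := by
  unfold P
  have hH : (H : ℤ) ≠ 0 := by
    have := T.Hpos
    omega
  rw [T.hom, h_zpow T, T.Hs, Int.add_mul_ediv_right _ _ hH]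

theorem P_near (T : Two S h s H n m) {a b : Γ} (hab : a⁻¹ * b ∈ S) :
    P h H b ≤ P h H a + 1 ∧ P h H a ≤ P h H b + 1 := by
  have hH : (0 : ℤ) < H := by exact_mod_cast T.Hpos
  have h1 := T.max _ hab
  have h2 : h b = h a + h (a⁻¹ * b) := by rw [← T.hom, mul_inv_cancel_left]
  rw [abs_le] at h1
  unfold P
  constructor
  · have h3 : h b ≤ h a + 1 * (H : ℤ) := by linarith
    calc h b / (H : ℤ) ≤ (h a + 1 * (H : ℤ)) / (H : ℤ) := Int.ediv_le_ediv hH h3
      _ = h a / (H : ℤ) + 1 := Int.add_mul_ediv_right _ _ hH.ne'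
  · have h3 : h a ≤ h b + 1 * (H : ℤ) := by linarith
    calc h a / (H : ℤ) ≤ (h b + 1 * (H : ℤ)) / (H : ℤ) := Int.ediv_le_ediv hH h3
      _ = h b / (H : ℤ) + 1 := Int.add_mul_ediv_right _ _ hH.ne'

/-- Translation by `s ^ (m k)`. -/
def Zk (s : Γ) (m : ℕ) (k : ℤ) : Γ := s ^ ((m : ℤ) * k)

theorem Zk_comm (T : Two S h s H n m) (k : ℤ) (g : Γ) : Zk s m k * g = g * Zk s m k := by
  have h1 : Commute g (s ^ m) := T.cen g
  have h2 := h1.zpow_right k
  unfold Zk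
  rw [zpow_mul, zpow_natCast]
  exact h2.symm

theorem P_Zk (T : Two S h s H n m) (k : ℤ) (g : Γ) :
    P h H (Zk s m k * g) = P h H g + m * k := by
  rw [Zk_comm T, Zk, P_mul T]

theorem line_Zk (T : Two S h s H n m) (k : ℤ) (g : Γ) :
    ((Zk s m k * g : Γ) : Γ ⧸ Subgroup.zpowers s) = g := by
  rw [Zk_comm T]
  exact QuotientGroup.mk_mul_of_mem g ⟨_, rfl⟩

theorem adj_Zk (k : ℤ) {a b : Γ} (hab : a⁻¹ * b ∈ S) :
    (Zk s m k * a)⁻¹ * (Zk s m k * b) ∈ S := by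
  have e : (Zk s m k * a)⁻¹ * (Zk s m k * b) = a⁻¹ * b := by group
  rwa [e]

/-- The block of the line `i` with heights in `[lo, hi)`. -/
def Bl (h : Γ → ℤ) (s : Γ) (H : ℕ) (A : Γ ⧸ Subgroup.zpowers s) (lo hi : ℤ) : Set Γ :=
  {v | (v : Γ ⧸ Subgroup.zpowers s) = A ∧ lo ≤ P h H v ∧ P h H v < hi}

theorem conn_Bl (T : Two S h s H n m) (A : Γ ⧸ Subgroup.zpowers s) {lo hi : ℤ} (hlh : lo < hi) :
    Conn (cay S) (Bl h s H A lo hi) := by
  obtain ⟨g0, hg0⟩ := QuotientGroup.mk_surjective (s := Subgroup.zpowers s) A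
  obtain ⟨r, hr⟩ : ∃ r : Γ, r = g0 * s ^ (-(P h H g0)) := ⟨_, rfl⟩
  have hrA : (r : Γ ⧸ Subgroup.zpowers s) = A := by
    rw [hr, ← hg0]
    exact QuotientGroup.mk_mul_of_mem g0 ⟨_, rfl⟩
  have hrP : P h H r = 0 := by
    rw [hr, P_mul T]; ring
  have hset : Bl h s H A lo hi = {v | ∃ y : ℤ, (lo ≤ y ∧ y < hi) ∧ r * s ^ y = v} := by
    ext v
    constructor
    · rintro ⟨hv, h1, h2⟩
      rw [← hrA] at hv
      have h3 : r⁻¹ * v ∈ Subgroup.zpowers s := QuotientGroup.eq.1 hv.symm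
      obtain ⟨y, hy⟩ := h3
      have hy' : r * s ^ y = v := by
        have : s ^ y = r⁻¹ * v := hy
        rw [this, mul_inv_cancel_left]
      have hP := P_mul T r y
      rw [hy', hrP, zero_add] at hP
      exact ⟨y, ⟨by rw [← hP]; exact h1, by rw [← hP]; exact h2⟩, hy'⟩
    · rintro ⟨y, ⟨h1, h2⟩, rfl⟩
      have hP := P_mul T r y
      rw [hrP, zero_add] at hP
      refine ⟨?_, ?_, ?_⟩
      · rw [← hrA]
        exact QuotientGroup.mk_mul_of_mem r ⟨_, rfl⟩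
      · rw [hP]; exact h1
      · rw [hP]; exact h2
  rw [hset]
  refine conn_line (fun y : ℤ => r * s ^ y) (fun y => lo ≤ y ∧ y < hi) lo ⟨le_refl _, hlh⟩ ?_ ?_ ?_
  · intro x h1 h2
    exact ⟨h1, by omega⟩
  · intro x h1 h2
    exact ⟨by omega, by omega⟩
  · intro x _ _
    have e : r * s ^ (x + 1) = r * s ^ x * s := by
      rw [zpow_add_one, mul_assoc]
    show (cay S).Adj (r * s ^ x) (r * s ^ (x + 1))
    rw [e]
    exact cay_adj_mul T.gen _ T.hs

/-- An integer in a given residue class in an interval of length `m`. -/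
theorem exists_shift (m : ℕ) (hm : 0 < m) (y t : ℤ) : ∃ k : ℤ, t ≤ y + m * k ∧ y + m * k < t + m := by
  have hm' : (0 : ℤ) < m := by exact_mod_cast hm
  refine ⟨-((y - t) / m), ?_, ?_⟩
  · have h1 := Int.emod_nonneg (y - t) hm'.ne'
    have h2 := Int.mul_ediv_add_emod (y - t) m
    have h3 : (m : ℤ) * -((y - t) / m) = -((m : ℤ) * ((y - t) / m)) := by ring
    rw [h3]; linarith
  · have h1 := Int.emod_lt_of_pos (y - t) hm'
    have h2 := Int.mul_ediv_add_emod (y - t) m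
    have h3 : (m : ℤ) * -((y - t) / m) = -((m : ℤ) * ((y - t) / m)) := by ring
    rw [h3]; linarith

/-- Adjacent lines are adjacent between any heights `t` and `t + m + 1`. -/
theorem horiz (T : Two S h s H n m) {A B : Γ ⧸ Subgroup.zpowers s} (hAB : (Ln S s).Adj A B)
    (t : ℤ) : ∃ a b : Γ, (a : Γ ⧸ Subgroup.zpowers s) = A ∧ (b : Γ ⧸ Subgroup.zpowers s) = B ∧
      a⁻¹ * b ∈ S ∧ (t ≤ P h H a ∧ P h H a ≤ t + m + 1) ∧ (t ≤ P h H b ∧ P h H b ≤ t + m + 1) := by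
  have hbase : ∃ a b : Γ, (a : Γ ⧸ Subgroup.zpowers s) = A ∧ (b : Γ ⧸ Subgroup.zpowers s) = B ∧
      a⁻¹ * b ∈ S := by
    unfold Ln at hAB
    rw [SimpleGraph.fromRel_adj] at hAB
    rcases hAB.2 with ⟨x, y, hy, h1, h2⟩ | ⟨x, y, hy, h1, h2⟩
    · exact ⟨x, x * y, h1, h2, by rwa [inv_mul_cancel_left]⟩
    · refine ⟨x * y, x, h2, h1, ?_⟩
      have e : (x * y)⁻¹ * x = y⁻¹ := by group
      rw [e]
      exact T.gen.2.1 _ hy
  obtain ⟨a, b, ha, hb, hab⟩ := hbase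
  obtain ⟨k, hk1, hk2⟩ := exists_shift m T.mpos (P h H a) (t + 1)
  have hn1 := P_near T hab
  refine ⟨Zk s m k * a, Zk s m k * b, ?_, ?_, adj_Zk k hab, ?_, ?_⟩
  · rw [line_Zk T]; exact ha
  · rw [line_Zk T]; exact hb
  · rw [P_Zk T]; constructor <;> linarith
  · rw [P_Zk T]; constructor <;> linarith [hn1.1, hn1.2]

/-- The line of a column. -/
def ix (n : ℕ) (c : ZMod n) {p : ℕ} (j : Fin p) (b : Bool) : ZMod n :=
  c + ((2 * (j : ℕ) + (if b then 1 else 0) : ℕ) : ZMod n)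

theorem ix_inj {n p : ℕ} (hn : 2 * p ≤ n) {c : ZMod n} {j j' : Fin p} {b b' : Bool}
    (hh : ix n c j b = ix n c j' b') : j = j' ∧ b = b' := by
  unfold ix at hh
  have h1 := add_left_cancel hh
  have h2 : (2 * (j : ℕ) + (if b then 1 else 0)) = (2 * (j' : ℕ) + (if b' then 1 else 0)) := by
    have hj := j.2
    have hj' := j'.2
    have l1 : (2 * (j : ℕ) + (if b then 1 else 0)) < n := by
      split <;> omega
    have l2 : (2 * (j' : ℕ) + (if b' then 1 else 0)) < n := by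
      split <;> omega
    rw [ZMod.natCast_eq_natCast_iff] at h1
    exact Nat.ModEq.eq_of_lt_of_lt h1 l1 l2
  cases b <;> cases b' <;> simp at h2 <;> first
    | exact ⟨Fin.ext (by omega), rfl⟩
    | omega

theorem crxB (T : Two S h s H n m) (hn : 3 ≤ n) (e : (Γ ⧸ Subgroup.zpowers s) ≃ ZMod n)
    (hc : IsCyc S s n e) (c : ZMod n) (p : ℕ) (hp : 2 * p ≤ n)
    (hX : ∀ j : ℕ, j < p → Crs S h s H n e (c + ((2 * j : ℕ) : ZMod n))) :
    Mn (Wg p) (cay S) := by
  have hm : (0 : ℤ) < m := by exact_mod_cast T.mpos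
  choose a b ha hb hab h1 h2 using fun j : Fin p => hX j j.2
  have hPab : ∀ j, P h H (b j) = P h H (a j) + 1 := by
    intro j
    have hH : (H : ℤ) ≠ 0 := by
      have := T.Hpos
      omega
    unfold P
    rw [hab j]
    have e1 : h (a j) + (H : ℤ) = h (a j) + 1 * (H : ℤ) := by ring
    rw [e1, Int.add_mul_ediv_right _ _ hH]
  obtain ⟨o, ho⟩ : ∃ o : Fin p → ℤ, ∀ j, o j = (P h H (a j) + 1) % m := ⟨_, fun _ => rfl⟩
  have ho0 : ∀ j, 0 ≤ o j := fun j => by rw [ho]; exact Int.emod_nonneg _ hm.ne'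
  have hom : ∀ j, o j < m := fun j => by rw [ho]; exact Int.emod_lt_of_pos _ hm
  -- the crossing at the boundary of the blocks `x`, `x + 1`
  have hcross : ∀ (j : Fin p) (x : ℤ), ∃ k : ℤ, P h H (a j) + 1 + m * k = 4 * m * (x + 1) + o j := by
    intro j x
    refine ⟨4 * (x + 1) - (P h H (a j) + 1) / m, ?_⟩
    have e1 := Int.mul_ediv_add_emod (P h H (a j) + 1) m
    rw [ho j]
    linear_combination (-1 : ℤ) * e1
  have la : ∀ j, ((a j : Γ) : Γ ⧸ Subgroup.zpowers s) = e.symm (ix n c j false) := by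
    intro j
    rw [← e.symm_apply_apply ((a j : Γ) : Γ ⧸ Subgroup.zpowers s), ha j]
    congr 1
  have lb : ∀ j, ((b j : Γ) : Γ ⧸ Subgroup.zpowers s) = e.symm (ix n c j true) := by
    intro j
    rw [← e.symm_apply_apply ((b j : Γ) : Γ ⧸ Subgroup.zpowers s), hb j]
    congr 1
    unfold ix
    push_cast
    simp
    ring
  obtain ⟨φ, hφ⟩ : ∃ φ : ℤ × Fin p × Bool → Set Γ, ∀ v, φ v =
      Bl h s H (e.symm (ix n c v.2.1 v.2.2)) (4 * m * v.1 + o v.2.1)
        (4 * m * (v.1 + 1) + o v.2.1) := ⟨_, fun _ => rfl⟩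
  have hmem : ∀ (g : Γ) (x : ℤ) (j : Fin p) (t : Bool),
      (g : Γ ⧸ Subgroup.zpowers s) = e.symm (ix n c j t) → 4 * m * x + o j ≤ P h H g →
      P h H g < 4 * m * (x + 1) + o j → g ∈ φ (x, j, t) := by
    intro g x j t k1 k2 k3
    rw [hφ]
    exact ⟨k1, k2, k3⟩
  -- vertical
  have vert : ∀ (x : ℤ) (j : Fin p) (t : Bool), ∃ u ∈ φ (x, j, t), ∃ v ∈ φ (x + 1, j, t),
      (cay S).Adj u v := by
    intro x j t
    obtain ⟨g0, hg0⟩ := QuotientGroup.mk_surjective (s := Subgroup.zpowers s)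
      (e.symm (ix n c j t))
    obtain ⟨y, hy⟩ : ∃ y : ℤ, y = 4 * m * (x + 1) + o j - 1 - P h H g0 := ⟨_, rfl⟩
    have l1 : ((g0 * s ^ y : Γ) : Γ ⧸ Subgroup.zpowers s) = e.symm (ix n c j t) := by
      rw [← hg0]; exact QuotientGroup.mk_mul_of_mem g0 ⟨_, rfl⟩
    have l2 : ((g0 * s ^ (y + 1) : Γ) : Γ ⧸ Subgroup.zpowers s) = e.symm (ix n c j t) := by
      rw [← hg0]; exact QuotientGroup.mk_mul_of_mem g0 ⟨_, rfl⟩
    refine ⟨g0 * s ^ y, hmem _ _ _ _ l1 ?_ ?_, g0 * s ^ (y + 1), hmem _ _ _ _ l2 ?_ ?_, ?_⟩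
    · rw [P_mul T, hy]; linarith
    · rw [P_mul T, hy]; linarith
    · rw [P_mul T, hy]; linarith
    · rw [P_mul T, hy]; linarith
    · rw [zpow_add_one, ← mul_assoc]
      exact cay_adj_mul T.gen _ T.hs
  -- the two diagonals
  have diag1 : ∀ (x : ℤ) (j : Fin p), ∃ u ∈ φ (x, j, false), ∃ v ∈ φ (x + 1, j, true),
      (cay S).Adj u v := by
    intro x j
    obtain ⟨k, hk⟩ := hcross j x
    refine ⟨Zk s m k * a j, hmem _ _ _ _ ?_ ?_ ?_, Zk s m k * b j, hmem _ _ _ _ ?_ ?_ ?_, ?_⟩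
    · rw [line_Zk T]; exact la j
    · rw [P_Zk T]; linarith
    · rw [P_Zk T]; linarith
    · rw [line_Zk T]; exact lb j
    · rw [P_Zk T, hPab]; linarith
    · rw [P_Zk T, hPab]; linarith
    · rw [cay_adj T.gen]
      exact adj_Zk k (h1 j)
  have diag2 : ∀ (x : ℤ) (j : Fin p), ∃ u ∈ φ (x, j, true), ∃ v ∈ φ (x + 1, j, false),
      (cay S).Adj u v := by
    intro x j
    obtain ⟨k, hk⟩ := hcross j x
    have pa : P h H (a j * s) = P h H (a j) + 1 := by
      have := P_mul T (a j) 1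
      rwa [zpow_one] at this
    have pb : P h H (b j * s⁻¹) = P h H (b j) - 1 := by
      have := P_mul T (b j) (-1)
      rw [zpow_neg_one] at this
      rw [this]; ring
    have l1 : ((a j * s : Γ) : Γ ⧸ Subgroup.zpowers s) = e.symm (ix n c j false) := by
      rw [← la j]; exact QuotientGroup.mk_mul_of_mem _ (Subgroup.mem_zpowers s)
    have l2 : ((b j * s⁻¹ : Γ) : Γ ⧸ Subgroup.zpowers s) = e.symm (ix n c j true) := by
      rw [← lb j]
      exact QuotientGroup.mk_mul_of_mem _ ((Subgroup.zpowers s).inv_mem (Subgroup.mem_zpowers s))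
    refine ⟨Zk s m k * (b j * s⁻¹), hmem _ _ _ _ ?_ ?_ ?_, Zk s m k * (a j * s),
      hmem _ _ _ _ ?_ ?_ ?_, ?_⟩
    · rw [line_Zk T]; exact l2
    · rw [P_Zk T, pb, hPab]; linarith
    · rw [P_Zk T, pb, hPab]; linarith
    · rw [line_Zk T]; exact l1
    · rw [P_Zk T, pa]; linarith
    · rw [P_Zk T, pa]; linarith
    · refine SimpleGraph.Adj.symm ?_
      rw [cay_adj T.gen]
      exact adj_Zk k (h2 j)
  -- horizontal
  have hor : ∀ (x : ℤ) (j j' : Fin p) (t t' : Bool), ix n c j' t' = ix n c j t + 1 →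
      ∃ u ∈ φ (x, j, t), ∃ v ∈ φ (x, j', t'), (cay S).Adj u v := by
    intro x j j' t t' hix
    have hadj : (Ln S s).Adj (e.symm (ix n c j t)) (e.symm (ix n c j' t')) := by
      rw [hc, e.apply_symm_apply, e.apply_symm_apply]
      exact Or.inl hix
    obtain ⟨u, v, hu, hv, huv, hu2, hv2⟩ := horiz T hadj (4 * m * x + m)
    have o1 := ho0 j
    have o2 := hom j
    have o3 := ho0 j'
    have o4 := hom j'
    have hm1 : (1 : ℤ) ≤ m := hm
    refine ⟨u, hmem _ _ _ _ hu (by linarith [hu2.1]) (by linarith [hu2.2]), v,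
      hmem _ _ _ _ hv (by linarith [hv2.1]) (by linarith [hv2.2]), ?_⟩
    rw [cay_adj T.gen]
    exact huv
  have hpair : ∀ (x : ℤ) (j : Fin p), ∃ u ∈ φ (x, j, false), ∃ v ∈ φ (x, j, true),
      (cay S).Adj u v := by
    intro x j
    refine hor x j j false true ?_
    unfold ix
    push_cast
    simp
    ring
  have swap : ∀ u v : ℤ × Fin p × Bool, (∃ x ∈ φ u, ∃ y ∈ φ v, (cay S).Adj x y) →
      ∃ x ∈ φ v, ∃ y ∈ φ u, (cay S).Adj x y := by
    rintro u v ⟨x, hx, y, hy, hxy⟩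
    exact ⟨y, hy, x, hx, hxy.symm⟩
  have main : ∀ u v : ℤ × Fin p × Bool, u ≠ v → ((u.2.1 = v.2.1 ∧ |u.1 - v.1| ≤ 1) ∨
      (u.1 = v.1 ∧ (v.2.1 : ℕ) = u.2.1 + 1 ∧ u.2.2 = true ∧ v.2.2 = false)) →
      ∃ x ∈ φ u, ∃ y ∈ φ v, (cay S).Adj x y := by
    rintro ⟨x, j, t⟩ ⟨x', j', t'⟩ hne hh
    rcases hh with ⟨hj, hx⟩ | ⟨hx, hj, ht, ht'⟩
    · simp only at hj hx
      subst hj
      rw [abs_le] at hx
      have hx3 : x' = x ∨ x' = x + 1 ∨ x = x' + 1 := by omega
      rcases hx3 with rfl | rfl | rfl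
      · cases t <;> cases t'
        · exact absurd rfl hne
        · exact hpair _ _
        · exact swap _ _ (hpair _ _)
        · exact absurd rfl hne
      · cases t <;> cases t'
        · exact vert _ _ _
        · exact diag1 _ _
        · exact diag2 _ _
        · exact vert _ _ _
      · cases t <;> cases t'
        · exact swap _ _ (vert _ _ _)
        · exact swap _ _ (diag2 _ _)
        · exact swap _ _ (diag1 _ _)
        · exact swap _ _ (vert _ _ _)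
    · simp only at hx hj ht ht'
      subst hx ht ht'
      refine hor _ _ _ _ _ ?_
      unfold ix
      rw [hj]
      push_cast
      simp
      ring
  refine ⟨φ, ?_, ?_, ?_⟩
  · intro v
    rw [hφ]
    refine conn_Bl T _ ?_
    have : (0 : ℤ) < 4 * m := by linarith
    linarith
  · intro u v g hu hv
    rw [hφ] at hu hv
    obtain ⟨u1, u2, u3⟩ := hu
    obtain ⟨v1, v2, v3⟩ := hv
    have hi := e.symm.injective (u1.symm.trans v1)
    obtain ⟨hj, ht⟩ := ix_inj hp hi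
    rw [← hj] at v2 v3
    have hx : u.1 = v.1 := by
      have hL : (0 : ℤ) < 4 * m := by linarith
      rcases lt_trichotomy u.1 v.1 with hlt | heq | hgt
      · exfalso
        have : 4 * (m : ℤ) * (u.1 + 1) ≤ 4 * m * v.1 := mul_le_mul_of_nonneg_left hlt hL.le
        linarith
      · exact heq
      · exfalso
        have : 4 * (m : ℤ) * (v.1 + 1) ≤ 4 * m * u.1 := mul_le_mul_of_nonneg_left hgt hL.le
        linarith
    exact Prod.ext hx (Prod.ext hj ht)
  · intro u v hadj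
    unfold Wg at hadj
    rw [SimpleGraph.fromRel_adj] at hadj
    obtain ⟨hne, hh⟩ := hadj
    rcases hh with hh | hh
    · exact main _ _ hne hh
    · exact swap _ _ (main _ _ hne.symm hh)

end

theorem crx : CrxStmt.{u} := by
  intro Γ _ S h s H n m T hn e hc hex q hq
  obtain ⟨c, hcx⟩ := crxA Γ S h s H n m T hn e hc hex
  have h1 : Mn (Wg (q + 1)) (cay S) :=
    crxB T hn e hc c (q + 1) (by omega) (fun j hj => hcx j (by omega))
  exact (starZ_le (Nat.le_succ q)).trans ((starZ_wg (Nat.succ_pos q)).trans h1)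

end Pool.Agent.Helper88.NW
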