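import Pool.Agent.Helper61.NW.Goals

/-!
# CRX in three parts
-/

set_option autoImplicit false

namespace Pool.Agent.Helper88.NW

open Pool.Agent.Helper52.Wq2 Pool.Agent.Helper61.NW

universe u

/-- Strip of `2 q` columns with both diagonals in the squares between the columns `2 j`, `2 j + 1`. -/
def Wx (q : ℕ) : SimpleGraph (ℤ × Fin (2 * q)) :=
  SimpleGraph.fromRel (fun a b => (b.1 = a.1 + 1 ∧ (a.2 : ℕ) / 2 = (b.2 : ℕ) / 2) ∨
    (a.1 = b.1 ∧ (b.2 : ℕ) = a.2 + 1))

/-- **CRXA** (shift). There is a shift `c` such that the gaps `c + 2 j`, `j < q`, have crossings.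

Proof. Left multiplication acts on the lines, transitively, as a rotation or reflection of the cycle,
and preserves crossings (a crossing is symmetric: `a' = b s⁻¹`, `b' = a s`). So the number of gaps with
crossings at a line is the same for all lines, and positive: all gaps have crossings (`c = 0`), or they
alternate (`c` = a gap with a crossing; for a line `j` exactly one of the gaps `j - 1`, `j`). -/
def CrxA : Prop := ∀ (Γ : Type u) [Group Γ] (S : Set Γ) (h : Γ → ℤ) (s : Γ) (H n m : ℕ),
  Two S h s H n m → 3 ≤ n → ∀ e, IsCyc S s n e → (∃ j, Crs S h s H n e j) →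
  ∃ c : ZMod n, ∀ j : ℕ, 2 * j + 1 < n → Crs S h s H n e (c + ((2 * j : ℕ) : ZMod n))

/-- **CRXB** (blocks). Column `l` is the line `c + l`; `pos g = h g / H`; block `(x, l)`: `pos` in
`[4 m x + o l, 4 m (x + 1) + o l)` with `0 ≤ o l < m`, `o (2 j) = o (2 j + 1) = (pos a + 1) % m` for
the crossing `a`, `b` of the gap `c + 2 j`.

Proof. `o` makes the boundary of the blocks of both lines of a pair be the crossing: `s ^ (m k) a` is
the last element of block `(x, 2 j)`, `s ^ (m k) b` the first of block `(x + 1, 2 j + 1)`, and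
`s ^ (m k) b s⁻¹` the last of `(x, 2 j + 1)`, `s ^ (m k) a s` the first of `(x + 1, 2 j)`. Edges between
adjacent lines: an edge with `pos` in `[4 m x + m + 1, 4 m x + 2 m + 1)` at one end (translate by a
power of `s ^ m`). -/
def CrxB : Prop := ∀ (Γ : Type u) [Group Γ] (S : Set Γ) (h : Γ → ℤ) (s : Γ) (H n m : ℕ),
  Two S h s H n m → 3 ≤ n → ∀ e, IsCyc S s n e → ∀ (c : ZMod n) (q : ℕ), 2 * q + 2 ≤ n →
  (∀ j : ℕ, j < q → Crs S h s H n e (c + ((2 * j : ℕ) : ZMod n))) → Mn (Wx q) (cay S)

/-- **CRXC** (the strip). `d h = min (h % 2q) (2q - h % 2q)`. Centre at height `h`: columns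
`2 d - 1`, `2 d` (those in `[0, 2 q)`); leaf `j` at height `h`: column `2 j` if `j < d`, `2 j + 1`
if `d ≤ j`. Blocks of `2 q` heights. (helper88) -/
def CrxC : Prop := ∀ q : ℕ, 1 ≤ q → Mn (StarZ (Fin q)) (Wx q)

end Pool.Agent.Helper88.NW
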