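import Pool.Agent.Helper61.NW.Goals2
import Pool.Agent.Helper4.NW.W

/-!
# LCX: line systems with crossings
-/

set_option autoImplicit false

namespace Pool.Agent.Helper88.NW.L

open Pool.Agent.Helper52.Wq2 Pool.Agent.Helper61.NW Pool.Agent.Helper4.NW

section

variable {n m : ℕ} {G : SimpleGraph (ℤ × Fin n)}

/-- A crossing between two lines. -/
def Yl (G : SimpleGraph (ℤ × Fin n)) (u v : Fin n) : Prop :=
  ∃ a : ℤ, G.Adj (a, u) (a + 1, v) ∧ G.Adj (a + 1, u) (a, v)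

theorem Yl.symm {u v : Fin n} (hy : Yl G u v) : Yl G v u := by
  obtain ⟨a, h1, h2⟩ := hy
  exact ⟨a, h2.symm, h1.symm⟩

theorem Yl.map (T : Lsys n m G) {u v : Fin n} (hy : Yl G u v) (f : G ≃g G)
    (τ : Equiv.Perm (Fin n)) (e : ℤ) (c : Fin n → ℤ) (he : e = 1 ∨ e = -1)
    (hf : ∀ a k, f (a, k) = (e * a + c k, τ k)) : Yl G (τ u) (τ v) := by
  obtain ⟨a, h1, h2⟩ := hy
  have g1 := f.map_adj_iff.2 h1
  have g2 := f.map_adj_iff.2 h2
  rw [hf, hf] at g1 g2
  have n1 := T.near _ _ _ _ g1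
  have n2 := T.near _ _ _ _ g2
  rw [abs_le] at n1 n2
  rcases he with rfl | rfl
  · have hc : c u = c v := by omega
    refine ⟨a + c u, ?_, ?_⟩
    · have e1 : (1 : ℤ) * a + c u = a + c u := by ring
      have e2 : (1 : ℤ) * (a + 1) + c v = a + c u + 1 := by rw [hc]; ring
      rwa [e1, e2] at g1
    · have e1 : (1 : ℤ) * (a + 1) + c u = a + c u + 1 := by ring
      have e2 : (1 : ℤ) * a + c v = a + c u := by rw [hc]; ring
      rwa [e1, e2] at g2
  · have hc : c u = c v := by omega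
    refine ⟨-a - 1 + c u, ?_, ?_⟩
    · have e1 : (-1 : ℤ) * (a + 1) + c u = -a - 1 + c u := by ring
      have e2 : (-1 : ℤ) * a + c v = -a - 1 + c u + 1 := by rw [hc]; ring
      rwa [e1, e2] at g2
    · have e1 : (-1 : ℤ) * a + c u = -a - 1 + c u + 1 := by ring
      have e2 : (-1 : ℤ) * (a + 1) + c v = -a - 1 + c u := by rw [hc]; ring
      rwa [e1, e2] at g1

theorem lg_map {u v : Fin n} (hy : (Lg G).Adj u v) (f : G ≃g G)
    (τ : Equiv.Perm (Fin n)) (e : ℤ) (c : Fin n → ℤ)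
    (hf : ∀ a k, f (a, k) = (e * a + c k, τ k)) : (Lg G).Adj (τ u) (τ v) := by
  unfold Lg at hy ⊢
  rw [SimpleGraph.fromRel_adj] at hy ⊢
  obtain ⟨hne, hh⟩ := hy
  refine ⟨fun h => hne (τ.injective h), ?_⟩
  rcases hh with ⟨a, b, hab⟩ | ⟨a, b, hab⟩
  · have := f.map_adj_iff.2 hab
    rw [hf, hf] at this
    exact Or.inl ⟨_, _, this⟩
  · have := f.map_adj_iff.2 hab
    rw [hf, hf] at this
    exact Or.inr ⟨_, _, this⟩

/-- Transport of crossings from the line `i` to the line `i'`. -/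
theorem transport (T : Lsys n m G) (hn : 3 ≤ n) (e : Fin n ≃ ZMod n) (hc : LCyc G e)
    (i i' : ZMod n) :
    (LCrs G e (i - 1) ∨ LCrs G e i → LCrs G e (i' - 1) ∨ LCrs G e i') ∧
    (LCrs G e (i - 1) ∧ LCrs G e i → LCrs G e (i' - 1) ∧ LCrs G e i') := by
  have hX : ∀ j : ZMod n, LCrs G e j ↔ Yl G (e.symm j) (e.symm (j + 1)) := by
    intro j
    constructor
    · rintro ⟨a, u, v, hu, hv, h1, h2⟩
      rw [← hv, ← hu, Equiv.symm_apply_apply, Equiv.symm_apply_apply]
      exact ⟨a, h1, h2⟩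
    · rintro ⟨a, h1, h2⟩
      exact ⟨a, _, _, e.apply_symm_apply _, e.apply_symm_apply _, h1, h2⟩
  have hX1 : ∀ j : ZMod n, LCrs G e (j - 1) ↔ Yl G (e.symm j) (e.symm (j - 1)) := by
    intro j
    rw [hX, sub_add_cancel]
    exact ⟨fun hh => hh.symm, fun hh => hh.symm⟩
  obtain ⟨f, τ, ε, c, hε, hτ, hf⟩ := T.trans (e.symm i) (e.symm i')
  have adp : (Lg G).Adj (e.symm i) (e.symm (i + 1)) := by
    rw [hc, e.apply_symm_apply, e.apply_symm_apply]; exact Or.inl rfl
  have adm : (Lg G).Adj (e.symm i) (e.symm (i - 1)) := by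
    rw [hc, e.apply_symm_apply, e.apply_symm_apply]; exact Or.inr (by ring)
  have adp' := lg_map adp f τ ε c hf
  have adm' := lg_map adm f τ ε c hf
  rw [hτ, hc, e.apply_symm_apply] at adp' adm'
  have ypm : Yl G (e.symm i) (e.symm (i + 1)) → Yl G (e.symm i') (τ (e.symm (i + 1))) := by
    intro hy
    have := hy.map T f τ ε c hε hf
    rwa [hτ] at this
  have ymm : Yl G (e.symm i) (e.symm (i - 1)) → Yl G (e.symm i') (τ (e.symm (i - 1))) := by
    intro hy
    have := hy.map T f τ ε c hε hf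
    rwa [hτ] at this
  have hne : τ (e.symm (i + 1)) ≠ τ (e.symm (i - 1)) := by
    intro hh
    have h2 : i + 1 = i - 1 := e.symm.injective (τ.injective hh)
    have h3 : ((2 : ℕ) : ZMod n) = 0 := by
      push_cast
      linear_combination h2
    rw [ZMod.natCast_eq_zero_iff] at h3
    have := Nat.le_of_dvd (by norm_num) h3
    omega
  have cas : (τ (e.symm (i + 1)) = e.symm (i' + 1) ∧ τ (e.symm (i - 1)) = e.symm (i' - 1)) ∨
      (τ (e.symm (i + 1)) = e.symm (i' - 1) ∧ τ (e.symm (i - 1)) = e.symm (i' + 1)) := by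
    have q1 : τ (e.symm (i + 1)) = e.symm (i' + 1) ∨ τ (e.symm (i + 1)) = e.symm (i' - 1) := by
      rcases adp' with hh | hh
      · left; rw [← hh, Equiv.symm_apply_apply]
      · right; rw [hh, add_sub_cancel_right, Equiv.symm_apply_apply]
    have q2 : τ (e.symm (i - 1)) = e.symm (i' + 1) ∨ τ (e.symm (i - 1)) = e.symm (i' - 1) := by
      rcases adm' with hh | hh
      · left; rw [← hh, Equiv.symm_apply_apply]
      · right; rw [hh, add_sub_cancel_right, Equiv.symm_apply_apply]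
    rcases q1 with q1 | q1 <;> rcases q2 with q2 | q2
    · exact absurd (q1.trans q2.symm) hne
    · exact Or.inl ⟨q1, q2⟩
    · exact Or.inr ⟨q1, q2⟩
    · exact absurd (q1.trans q2.symm) hne
  rw [hX i, hX1 i, hX i', hX1 i']
  rcases cas with ⟨c1, c2⟩ | ⟨c1, c2⟩
  · rw [c1] at ypm
    rw [c2] at ymm
    exact ⟨fun hh => hh.imp ymm ypm, fun hh => ⟨ymm hh.1, ypm hh.2⟩⟩
  · rw [c1] at ypm
    rw [c2] at ymm
    exact ⟨fun hh => (hh.imp ymm ypm).symm, fun hh => ⟨ypm hh.2, ymm hh.1⟩⟩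

theorem shift (T : Lsys n m G) (hn : 3 ≤ n) (e : Fin n ≃ ZMod n) (hc : LCyc G e)
    (hex : ∃ j, LCrs G e j) :
    ∃ c : ZMod n, ∀ j : ℕ, 2 * j + 1 < n → LCrs G e (c + ((2 * j : ℕ) : ZMod n)) := by
  obtain ⟨j0, hj0⟩ := hex
  have hor : ∀ i : ZMod n, LCrs G e (i - 1) ∨ LCrs G e i := fun i =>
    (transport T hn e hc j0 i).1 (Or.inr hj0)
  by_cases hall : ∀ i : ZMod n, LCrs G e i
  · exact ⟨0, fun j _ => hall _⟩
  · push Not at hall
    obtain ⟨i0, hi0⟩ := hall
    have hnot : ∀ i : ZMod n, ¬ (LCrs G e (i - 1) ∧ LCrs G e i) := fun i hh =>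
      hi0 ((transport T hn e hc i i0).2 hh).2
    have hstep : ∀ i : ZMod n, LCrs G e i → LCrs G e (i + 2) := by
      intro i hi
      have h1 : ¬ LCrs G e (i + 1) := by
        intro hh
        apply hnot (i + 1)
        rw [add_sub_cancel_right]
        exact ⟨hi, hh⟩
      have h2 := hor (i + 2)
      have h3 : i + 2 - 1 = i + 1 := by ring
      rw [h3] at h2
      exact h2.resolve_left h1
    refine ⟨j0, fun j _ => ?_⟩
    induction j with
    | zero => simpa using hj0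
    | succ j ih =>
      have h1 := hstep _ (ih (by omega))
      have h2 : j0 + ((2 * (j + 1) : ℕ) : ZMod n) = j0 + ((2 * j : ℕ) : ZMod n) + 2 := by
        push_cast; ring
      rw [h2]
      exact h1

/-- Translations by multiples of `m`. -/
theorem perk (T : Lsys n m G) {a b : ℤ} {i j : Fin n} (hab : G.Adj (a, i) (b, j)) (k : ℤ) :
    G.Adj (a + m * k, i) (b + m * k, j) := by
  induction k using Int.induction_on with
  | zero => simpa using hab
  | succ k ih =>
    have h1 := (T.per _ _ _ _).1 ih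
    have e1 : ∀ x : ℤ, x + (m : ℤ) * ((k : ℤ) + 1) = x + m * k + m := fun x => by ring
    rw [e1, e1]
    exact h1
  | pred k ih =>
    rw [T.per]
    have e1 : ∀ x : ℤ, x + (m : ℤ) * (-(k : ℤ) - 1) + m = x + m * (-k) := fun x => by ring
    rw [e1, e1]
    exact ih

/-- The block of the line `i` with heights in `[lo, hi)`. -/
def Bl (i : Fin n) (lo hi : ℤ) : Set (ℤ × Fin n) := {v | v.2 = i ∧ lo ≤ v.1 ∧ v.1 < hi}

theorem conn_Bl (T : Lsys n m G) (i : Fin n) {lo hi : ℤ} (hlh : lo < hi) :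
    Conn G (Bl i lo hi) := by
  have hset : (Bl i lo hi) = {v | ∃ y : ℤ, (lo ≤ y ∧ y < hi) ∧ ((y, i) : ℤ × Fin n) = v} := by
    ext v
    constructor
    · rintro ⟨hv, h1, h2⟩
      exact ⟨v.1, ⟨h1, h2⟩, Prod.ext rfl hv.symm⟩
    · rintro ⟨y, ⟨h1, h2⟩, rfl⟩
      exact ⟨rfl, h1, h2⟩
  rw [hset]
  refine conn_line (fun y : ℤ => ((y, i) : ℤ × Fin n)) (fun y => lo ≤ y ∧ y < hi) lo
    ⟨le_refl _, hlh⟩ ?_ ?_ ?_
  · intro x h1 h2
    exact ⟨h1, by omega⟩
  · intro x h1 h2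
    exact ⟨by omega, by omega⟩
  · intro x _ _
    exact T.step x i

/-- An integer in a given residue class in an interval of length `m`. -/
theorem exists_shift (m : ℕ) (hm : 0 < m) (y t : ℤ) : ∃ k : ℤ, t ≤ y + m * k ∧ y + m * k < t + m := by
  have hm' : (0 : ℤ) < m := by exact_mod_cast hm
  refine ⟨-((y - t) / m), ?_, ?_⟩
  · have h1 := Int.emod_nonneg (y - t) hm'.ne'
    have h2 := Int.mul_ediv_add_emod (y - t) m
    have h3 : (m : ℤ) * -((y - t) / m) = -((m : ℤ) * ((y - t) / m)) := by ring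
    rw [h3]; linarith
  · have h1 := Int.emod_lt_of_pos (y - t) hm'
    have h2 := Int.mul_ediv_add_emod (y - t) m
    have h3 : (m : ℤ) * -((y - t) / m) = -((m : ℤ) * ((y - t) / m)) := by ring
    rw [h3]; linarith

/-- Adjacent lines are adjacent between any heights `t` and `t + m + 1`. -/
theorem horiz (T : Lsys n m G) {A B : Fin n} (hAB : (Lg G).Adj A B)
    (t : ℤ) : ∃ a b : ℤ, G.Adj (a, A) (b, B) ∧ (t ≤ a ∧ a ≤ t + m + 1) ∧
      (t ≤ b ∧ b ≤ t + m + 1) := by
  have hbase : ∃ a b : ℤ, G.Adj (a, A) (b, B) := by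
    unfold Lg at hAB
    rw [SimpleGraph.fromRel_adj] at hAB
    rcases hAB.2 with ⟨x, y, h1⟩ | ⟨x, y, h1⟩
    · exact ⟨x, y, h1⟩
    · exact ⟨y, x, h1.symm⟩
  obtain ⟨a, b, hab⟩ := hbase
  obtain ⟨k, hk1, hk2⟩ := exists_shift m T.mpos a (t + 1)
  have hn1 := T.near _ _ _ _ hab
  rw [abs_le] at hn1
  refine ⟨a + m * k, b + m * k, perk T hab k, ?_, ?_⟩
  · constructor <;> linarith
  · constructor <;> linarith [hn1.1, hn1.2]

/-- The line of a column. -/
def ix (n : ℕ) (c : ZMod n) {p : ℕ} (j : Fin p) (b : Bool) : ZMod n :=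
  c + ((2 * (j : ℕ) + (if b then 1 else 0) : ℕ) : ZMod n)

theorem ix_inj {n p : ℕ} (hn : 2 * p ≤ n) {c : ZMod n} {j j' : Fin p} {b b' : Bool}
    (hh : ix n c j b = ix n c j' b') : j = j' ∧ b = b' := by
  unfold ix at hh
  have h1 := add_left_cancel hh
  have h2 : (2 * (j : ℕ) + (if b then 1 else 0)) = (2 * (j' : ℕ) + (if b' then 1 else 0)) := by
    have hj := j.2
    have hj' := j'.2
    have l1 : (2 * (j : ℕ) + (if b then 1 else 0)) < n := by
      split <;> omega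
    have l2 : (2 * (j' : ℕ) + (if b' then 1 else 0)) < n := by
      split <;> omega
    rw [ZMod.natCast_eq_natCast_iff] at h1
    exact Nat.ModEq.eq_of_lt_of_lt h1 l1 l2
  cases b <;> cases b' <;> simp at h2 <;> first
    | exact ⟨Fin.ext (by omega), rfl⟩
    | omega

theorem blocks (T : Lsys n m G) (e : Fin n ≃ ZMod n)
    (hc : LCyc G e) (c : ZMod n) (p : ℕ) (hp : 2 * p ≤ n)
    (hX : ∀ j : ℕ, j < p → LCrs G e (c + ((2 * j : ℕ) : ZMod n))) :
    Mn (Wg p) G := by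
  have hm : (0 : ℤ) < m := by exact_mod_cast T.mpos
  choose a u v hu hv h1 h2 using fun j : Fin p => hX j j.2
  obtain ⟨o, ho⟩ : ∃ o : Fin p → ℤ, ∀ j, o j = (a j + 1) % m := ⟨_, fun _ => rfl⟩
  have ho0 : ∀ j, 0 ≤ o j := fun j => by rw [ho]; exact Int.emod_nonneg _ hm.ne'
  have hom : ∀ j, o j < m := fun j => by rw [ho]; exact Int.emod_lt_of_pos _ hm
  have hcross : ∀ (j : Fin p) (x : ℤ), ∃ k : ℤ, a j + 1 + m * k = 4 * m * (x + 1) + o j := by
    intro j x
    refine ⟨4 * (x + 1) - (a j + 1) / m, ?_⟩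
    have e1 := Int.mul_ediv_add_emod (a j + 1) m
    rw [ho j]
    linear_combination (-1 : ℤ) * e1
  have la : ∀ j, u j = e.symm (ix n c j false) := by
    intro j
    rw [← e.symm_apply_apply (u j), hu j]
    congr 1
  have lb : ∀ j, v j = e.symm (ix n c j true) := by
    intro j
    rw [← e.symm_apply_apply (v j), hv j]
    congr 1
    unfold ix
    push_cast
    simp
    ring
  obtain ⟨φ, hφ⟩ : ∃ φ : ℤ × Fin p × Bool → Set (ℤ × Fin n), ∀ v, φ v =
      Bl (e.symm (ix n c v.2.1 v.2.2)) (4 * m * v.1 + o v.2.1)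
        (4 * m * (v.1 + 1) + o v.2.1) := ⟨_, fun _ => rfl⟩
  have hmem : ∀ (y : ℤ) (g : Fin n) (x : ℤ) (j : Fin p) (t : Bool),
      g = e.symm (ix n c j t) → 4 * m * x + o j ≤ y →
      y < 4 * m * (x + 1) + o j → (y, g) ∈ φ (x, j, t) := by
    intro y g x j t k1 k2 k3
    rw [hφ]
    exact ⟨k1, k2, k3⟩
  -- vertical
  have vert : ∀ (x : ℤ) (j : Fin p) (t : Bool), ∃ u ∈ φ (x, j, t), ∃ v ∈ φ (x + 1, j, t),
      G.Adj u v := by
    intro x j t
    refine ⟨(4 * m * (x + 1) + o j - 1, e.symm (ix n c j t)), hmem _ _ _ _ _ rfl ?_ ?_,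
      (4 * m * (x + 1) + o j - 1 + 1, e.symm (ix n c j t)), hmem _ _ _ _ _ rfl ?_ ?_,
      T.step _ _⟩
    · linarith
    · linarith
    · linarith
    · linarith
  -- the two diagonals
  have diag1 : ∀ (x : ℤ) (j : Fin p), ∃ u ∈ φ (x, j, false), ∃ v ∈ φ (x + 1, j, true),
      G.Adj u v := by
    intro x j
    obtain ⟨k, hk⟩ := hcross j x
    refine ⟨_, hmem (a j + m * k) (u j) _ _ _ (la j) ?_ ?_, _,
      hmem (a j + 1 + m * k) (v j) _ _ _ (lb j) ?_ ?_, perk T (h1 j) k⟩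
    · linarith
    · linarith
    · linarith
    · linarith
  have diag2 : ∀ (x : ℤ) (j : Fin p), ∃ u ∈ φ (x, j, true), ∃ v ∈ φ (x + 1, j, false),
      G.Adj u v := by
    intro x j
    obtain ⟨k, hk⟩ := hcross j x
    refine ⟨_, hmem (a j + m * k) (v j) _ _ _ (lb j) ?_ ?_, _,
      hmem (a j + 1 + m * k) (u j) _ _ _ (la j) ?_ ?_, (perk T (h2 j) k).symm⟩
    · linarith
    · linarith
    · linarith
    · linarith
  -- horizontal
  have hor : ∀ (x : ℤ) (j j' : Fin p) (t t' : Bool), ix n c j' t' = ix n c j t + 1 →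
      ∃ u ∈ φ (x, j, t), ∃ v ∈ φ (x, j', t'), G.Adj u v := by
    intro x j j' t t' hix
    have hadj : (Lg G).Adj (e.symm (ix n c j t)) (e.symm (ix n c j' t')) := by
      rw [hc, e.apply_symm_apply, e.apply_symm_apply]
      exact Or.inl hix
    obtain ⟨y, y', huv, hu2, hv2⟩ := horiz T hadj (4 * m * x + m)
    have o1 := ho0 j
    have o2 := hom j
    have o3 := ho0 j'
    have o4 := hom j'
    have hm1 : (1 : ℤ) ≤ m := hm
    exact ⟨_, hmem y _ _ _ _ rfl (by linarith [hu2.1]) (by linarith [hu2.2]), _,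
      hmem y' _ _ _ _ rfl (by linarith [hv2.1]) (by linarith [hv2.2]), huv⟩
  have hpair : ∀ (x : ℤ) (j : Fin p), ∃ u ∈ φ (x, j, false), ∃ v ∈ φ (x, j, true),
      G.Adj u v := by
    intro x j
    refine hor x j j false true ?_
    unfold ix
    push_cast
    simp
    ring
  have swap : ∀ u v : ℤ × Fin p × Bool, (∃ x ∈ φ u, ∃ y ∈ φ v, G.Adj x y) →
      ∃ x ∈ φ v, ∃ y ∈ φ u, G.Adj x y := by
    rintro u v ⟨x, hx, y, hy, hxy⟩
    exact ⟨y, hy, x, hx, hxy.symm⟩
  have main : ∀ u v : ℤ × Fin p × Bool, u ≠ v → ((u.2.1 = v.2.1 ∧ |u.1 - v.1| ≤ 1) ∨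
      (u.1 = v.1 ∧ (v.2.1 : ℕ) = u.2.1 + 1 ∧ u.2.2 = true ∧ v.2.2 = false)) →
      ∃ x ∈ φ u, ∃ y ∈ φ v, G.Adj x y := by
    rintro ⟨x, j, t⟩ ⟨x', j', t'⟩ hne hh
    rcases hh with ⟨hj, hx⟩ | ⟨hx, hj, ht, ht'⟩
    · simp only at hj hx
      subst hj
      rw [abs_le] at hx
      have hx3 : x' = x ∨ x' = x + 1 ∨ x = x' + 1 := by omega
      rcases hx3 with rfl | rfl | rfl
      · cases t <;> cases t'
        · exact absurd rfl hne
        · exact hpair _ _
        · exact swap _ _ (hpair _ _)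
        · exact absurd rfl hne
      · cases t <;> cases t'
        · exact vert _ _ _
        · exact diag1 _ _
        · exact diag2 _ _
        · exact vert _ _ _
      · cases t <;> cases t'
        · exact swap _ _ (vert _ _ _)
        · exact swap _ _ (diag2 _ _)
        · exact swap _ _ (diag1 _ _)
        · exact swap _ _ (vert _ _ _)
    · simp only at hx hj ht ht'
      subst hx ht ht'
      refine hor _ _ _ _ _ ?_
      unfold ix
      rw [hj]
      push_cast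
      simp
      ring
  refine ⟨φ, ?_, ?_, ?_⟩
  · intro v
    rw [hφ]
    refine conn_Bl T _ ?_
    have : (0 : ℤ) < 4 * m := by linarith
    linarith
  · intro u v g hu hv
    rw [hφ] at hu hv
    obtain ⟨u1, u2, u3⟩ := hu
    obtain ⟨v1, v2, v3⟩ := hv
    have hi := e.symm.injective (u1.symm.trans v1)
    obtain ⟨hj, ht⟩ := ix_inj hp hi
    rw [← hj] at v2 v3
    have hx : u.1 = v.1 := by
      have hL : (0 : ℤ) < 4 * m := by linarith
      rcases lt_trichotomy u.1 v.1 with hlt | heq | hgt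
      · exfalso
        have : 4 * (m : ℤ) * (u.1 + 1) ≤ 4 * m * v.1 := mul_le_mul_of_nonneg_left hlt hL.le
        linarith
      · exact heq
      · exfalso
        have : 4 * (m : ℤ) * (v.1 + 1) ≤ 4 * m * u.1 := mul_le_mul_of_nonneg_left hgt hL.le
        linarith
    exact Prod.ext hx (Prod.ext hj ht)
  · intro u v hadj
    unfold Wg at hadj
    rw [SimpleGraph.fromRel_adj] at hadj
    obtain ⟨hne, hh⟩ := hadj
    rcases hh with hh | hh
    · exact main _ _ hne hh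
    · exact swap _ _ (main _ _ hne.symm hh)

end

end Pool.Agent.Helper88.NW.L

namespace Pool.Agent.Helper88.NW

open Pool.Agent.Helper52.Wq2 Pool.Agent.Helper61.NW Pool.Agent.Helper4.NW

theorem lcx : LcxStmt := by
  intro n m G T hn e hc hex q hq
  obtain ⟨c, hcx⟩ := L.shift T hn e hc hex
  have h1 : Mn (Wg (q + 1)) G :=
    L.blocks T e hc c (q + 1) (by omega) (fun j hj => hcx j (by omega))
  exact (starZ_le (Nat.le_succ q)).trans ((starZ_wg (Nat.succ_pos q)).trans h1)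

end Pool.Agent.Helper88.NW
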